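import Mathlib

/-!
# The domain `|z|^2 + |w|^4 < 1`: elementary estimates, and the type of its boundary points
-/

set_option autoImplicit false

open Filter Topology Set Metric

namespace Pool.Agent.T2H76.SQ

/-- the defining function -/
noncomputable def rho (z : EuclideanSpace ℂ (Fin 2)) : ℝ := ‖z 0‖ ^ 2 + ‖z 1‖ ^ 4 - 1

/-- the domain -/
def egg : Set (EuclideanSpace ℂ (Fin 2)) := {z | ‖z 0‖ ^ 2 + ‖z 1‖ ^ 4 < 1}

theorem mem_egg {z : EuclideanSpace ℂ (Fin 2)} : z ∈ egg ↔ ‖z 0‖ ^ 2 + ‖z 1‖ ^ 4 < 1 := Iff.rfl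

theorem norm_sq_two (z : EuclideanSpace ℂ (Fin 2)) : ‖z‖ ^ 2 = ‖z 0‖ ^ 2 + ‖z 1‖ ^ 2 := by
  rw [EuclideanSpace.norm_sq_eq, Fin.sum_univ_two]

/-- lower bound for the quartic term -/
theorem quartic (x h : ℂ) : ‖x‖ ^ 4 + 4 * ‖x‖ ^ 2 * ((starRingEnd ℂ) x * h).re + ‖h‖ ^ 4 / 8 ≤
    ‖x + h‖ ^ 4 := by
  have h1 : ‖x + h‖ ^ 2 = ‖x‖ ^ 2 + 2 * ((starRingEnd ℂ) x * h).re + ‖h‖ ^ 2 := by
    rw [← Complex.normSq_eq_norm_sq, ← Complex.normSq_eq_norm_sq, ← Complex.normSq_eq_norm_sq,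
      Complex.normSq_add]
    have : (x * (starRingEnd ℂ) h).re = ((starRingEnd ℂ) x * h).re := by
      simp [Complex.mul_re]
    rw [this]
    ring
  set s := ((starRingEnd ℂ) x * h).re with hs
  have h2 : |s| ≤ ‖x‖ * ‖h‖ := by
    have := Complex.abs_re_le_norm ((starRingEnd ℂ) x * h)
    rwa [norm_mul, Complex.norm_conj] at this
  have h3 : ‖x + h‖ ^ 4 = (‖x‖ ^ 2 + 2 * s + ‖h‖ ^ 2) ^ 2 := by
    rw [← h1]
    ring
  rw [h3]
  have hx := norm_nonneg x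
  have hh := norm_nonneg h
  set X := ‖x‖ with hX
  set Y := ‖h‖ with hY
  have key : Y ^ 4 / 8 ≤ 2 * X ^ 2 * Y ^ 2 + (2 * s + Y ^ 2) ^ 2 := by
    have h4 := (abs_le.1 h2).1
    by_cases hc : Y ^ 2 / 4 ≤ X * Y
    · have h5 : (Y ^ 2 / 4) ^ 2 ≤ (X * Y) ^ 2 := by
        apply pow_le_pow_left₀ (by positivity) hc
      nlinarith [sq_nonneg (2 * s + Y ^ 2)]
    · push Not at hc
      have h5 : Y ^ 2 / 2 ≤ 2 * s + Y ^ 2 := by linarith
      have h6 : (Y ^ 2 / 2) ^ 2 ≤ (2 * s + Y ^ 2) ^ 2 := by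
        apply pow_le_pow_left₀ (by positivity) h5
      have h7 : 0 ≤ 2 * X ^ 2 * Y ^ 2 := by positivity
      nlinarith [sq_nonneg (Y ^ 2)]
  nlinarith [key]

theorem rho_lower (q h : EuclideanSpace ℂ (Fin 2)) (hh : ‖h 0‖ ≤ 1) :
    rho q + (2 * (starRingEnd ℂ) (q 0) * h 0 + 4 * (‖q 1‖ ^ 2 : ℝ) * (starRingEnd ℂ) (q 1) * h 1).re
      + ‖h‖ ^ 4 / 16 ≤ rho (q + h) := by
  have h1 : ‖q 0 + h 0‖ ^ 2 = ‖q 0‖ ^ 2 + 2 * ((starRingEnd ℂ) (q 0) * h 0).re + ‖h 0‖ ^ 2 := by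
    rw [← Complex.normSq_eq_norm_sq, ← Complex.normSq_eq_norm_sq, ← Complex.normSq_eq_norm_sq,
      Complex.normSq_add]
    have : (q 0 * (starRingEnd ℂ) (h 0)).re = ((starRingEnd ℂ) (q 0) * h 0).re := by
      simp [Complex.mul_re]
    rw [this]
    ring
  have h2 := quartic (q 1) (h 1)
  have h3 : (2 * (starRingEnd ℂ) (q 0) * h 0 +
      4 * (‖q 1‖ ^ 2 : ℝ) * (starRingEnd ℂ) (q 1) * h 1).re =
      2 * ((starRingEnd ℂ) (q 0) * h 0).re + 4 * ‖q 1‖ ^ 2 * ((starRingEnd ℂ) (q 1) * h 1).re := by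
    rw [Complex.add_re, mul_assoc, show (4 : ℂ) * ((‖q 1‖ ^ 2 : ℝ) : ℂ) *
      (starRingEnd ℂ) (q 1) * h 1 = ((4 * ‖q 1‖ ^ 2 : ℝ) : ℂ) * ((starRingEnd ℂ) (q 1) * h 1) by
        push_cast
        ring, Complex.re_ofReal_mul, show (2 : ℂ) * ((starRingEnd ℂ) (q 0) * h 0) =
        ((2 : ℝ) : ℂ) * ((starRingEnd ℂ) (q 0) * h 0) by push_cast; ring, Complex.re_ofReal_mul]
  have h4 : ‖h‖ ^ 4 ≤ 2 * (‖h 0‖ ^ 4 + ‖h 1‖ ^ 4) := by
    have : ‖h‖ ^ 4 = (‖h 0‖ ^ 2 + ‖h 1‖ ^ 2) ^ 2 := by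
      rw [← norm_sq_two]
      ring
    rw [this]
    nlinarith [sq_nonneg (‖h 0‖ ^ 2 - ‖h 1‖ ^ 2)]
  have h5 : ‖h 0‖ ^ 4 ≤ ‖h 0‖ ^ 2 := pow_le_pow_of_le_one (norm_nonneg _) hh (by norm_num)
  rw [h3]
  simp only [rho, PiLp.add_apply]
  rw [h1]
  have h6 : 0 ≤ ‖h 0‖ ^ 4 := by positivity
  linarith

/-- a holomorphic function vanishing at the centre has a point with nonnegative real part on each
small circle -/
theorem exists_re_nonneg {a : ℂ → ℂ} {δ : ℝ} (ha : DifferentiableOn ℂ a (ball 0 δ))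
    (ha0 : a 0 = 0) {r : ℝ} (hr : 0 < r) (hrδ : r < δ) :
    ∃ ζ : ℂ, ‖ζ‖ = r ∧ 0 ≤ (a ζ).re := by
  by_contra hcon
  push Not at hcon
  have hsub : closedBall (0 : ℂ) r ⊆ ball 0 δ := closedBall_subset_ball hrδ
  have hcont : ContinuousOn (fun ζ => ‖Complex.exp (a ζ)‖) (sphere (0 : ℂ) r) := by
    apply ContinuousOn.norm
    apply Complex.continuous_exp.comp_continuousOn
    exact ha.continuousOn.mono (sphere_subset_closedBall.trans hsub)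
  obtain ⟨ζ0, hζ0, hmax⟩ := (isCompact_sphere (0 : ℂ) r).exists_isMaxOn
    (NormedSpace.sphere_nonempty.2 hr.le) hcont
  have h1 : ‖Complex.exp (a ζ0)‖ < 1 := by
    rw [Complex.norm_exp]
    have := hcon ζ0 (by simpa using hζ0)
    exact (Real.exp_lt_exp.2 this).trans_eq Real.exp_zero
  have h2 : DiffContOnCl ℂ (fun ζ => Complex.exp (a ζ)) (ball 0 r) := by
    apply DifferentiableOn.diffContOnCl
    rw [closure_ball _ hr.ne']
    exact (ha.mono hsub).cexp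
  have h3 := Complex.norm_le_of_forall_mem_frontier_norm_le isBounded_ball h2
    (C := ‖Complex.exp (a ζ0)‖) (fun z hz => by
      rw [frontier_ball _ hr.ne'] at hz
      exact hmax hz) (z := 0) (subset_closure (mem_ball_self hr))
  rw [ha0, Complex.exp_zero, norm_one] at h3
  linarith

/-- order of contact of a boundary point with a holomorphic curve is at most four times the
multiplicity of the curve -/
theorem type_bound (q : EuclideanSpace ℂ (Fin 2)) (hq : rho q = 0)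
    (γ : ℂ → EuclideanSpace ℂ (Fin 2)) (hγ : AnalyticAt ℂ γ 0) (hγ0 : γ 0 = q) (m k : ℕ)
    (hm : analyticOrderAt (fun ζ => γ ζ - q) 0 = m)
    (hk : (fun ζ => rho (γ ζ)) =O[𝓝 0] fun ζ : ℂ => ‖ζ‖ ^ k) : k ≤ 4 * m := by
  have han : AnalyticAt ℂ (fun ζ => γ ζ - q) 0 := hγ.sub analyticAt_const
  obtain ⟨g, hg, hg0, hgm⟩ := han.analyticOrderAt_eq_natCast.1 hm
  -- everything happens in a small disc
  obtain ⟨C, hC⟩ := hk.bound
  have hgn : ∀ᶠ ζ in 𝓝 (0 : ℂ), ‖g 0‖ / 2 < ‖g ζ‖ := by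
    have : Tendsto (fun ζ => ‖g ζ‖) (𝓝 0) (𝓝 ‖g 0‖) := hg.continuousAt.norm
    apply this.eventually_const_lt
    have := norm_pos_iff.2 hg0
    linarith
  have hsmall : ∀ᶠ ζ in 𝓝 (0 : ℂ), ‖γ ζ - q‖ < 1 := by
    have : Tendsto (fun ζ => ‖γ ζ - q‖) (𝓝 0) (𝓝 ‖γ 0 - q‖) := han.continuousAt.norm
    apply this.eventually_lt_const
    rw [hγ0, sub_self, norm_zero]
    exact one_pos
  have hev := (((hγ.eventually_analyticAt.and hC).and hgn).and hsmall).and hgm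
  obtain ⟨δ, hδ, hball⟩ := Metric.eventually_nhds_iff_ball.1 hev
  set c : ℝ := (‖g 0‖ / 2) ^ 4 / 16 with hc
  have hcpos : 0 < c := by
    have := norm_pos_iff.2 hg0
    positivity
  have hineq : ∀ r : ℝ, 0 < r → r < δ → c * r ^ (4 * m) ≤ C * r ^ k := by
    intro r hr hrδ
    let a : ℂ → ℂ := fun ζ => 2 * (starRingEnd ℂ) (q 0) * (γ ζ - q) 0 +
      4 * (‖q 1‖ ^ 2 : ℝ) * (starRingEnd ℂ) (q 1) * (γ ζ - q) 1
    have ha : DifferentiableOn ℂ a (ball 0 δ) := by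
      intro ζ hζ
      have h1 : DifferentiableAt ℂ (fun ζ => γ ζ - q) ζ :=
        ((hball ζ hζ).1.1.1.1.differentiableAt).sub_const q
      have h2 := differentiableAt_euclidean.1 h1
      exact (((h2 0).const_mul _).add ((h2 1).const_mul _)).differentiableWithinAt
    have ha0 : a 0 = 0 := by simp [a, hγ0]
    obtain ⟨ζ, hζr, hζ⟩ := exists_re_nonneg ha ha0 hr hrδ
    have hζδ : ζ ∈ ball (0 : ℂ) δ := by
      rw [mem_ball_zero_iff, hζr]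
      exact hrδ
    obtain ⟨⟨⟨⟨_, e1⟩, e2⟩, e3⟩, e4⟩ := hball ζ hζδ
    have h0 : ‖(γ ζ - q) 0‖ ≤ 1 := (PiLp.norm_apply_le (γ ζ - q) 0).trans e3.le
    have h1 := rho_lower q (γ ζ - q) h0
    rw [add_sub_cancel, hq] at h1
    have h2 : (‖g 0‖ / 2) * r ^ m ≤ ‖γ ζ - q‖ := by
      rw [e4, sub_zero, norm_smul, norm_pow, hζr, mul_comm]
      have : 0 ≤ r ^ m := by positivity
      exact mul_le_mul_of_nonneg_left e2.le this
    have h3 : c * r ^ (4 * m) ≤ ‖γ ζ - q‖ ^ 4 / 16 := by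
      have h4 : ((‖g 0‖ / 2) * r ^ m) ^ 4 ≤ ‖γ ζ - q‖ ^ 4 := by
        apply pow_le_pow_left₀ (by positivity) h2
      have h5 : c * r ^ (4 * m) = ((‖g 0‖ / 2) * r ^ m) ^ 4 / 16 := by
        rw [hc, mul_pow, ← pow_mul, mul_comm m 4]
        ring
      rw [h5]
      linarith
    have h6 : rho (γ ζ) ≤ C * r ^ k := by
      rw [hζr] at e1
      refine (le_abs_self _).trans ?_
      rw [← Real.norm_eq_abs]
      refine e1.trans (le_of_eq ?_)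
      rw [Real.norm_of_nonneg (by positivity)]
    have h7 : 0 ≤ (a ζ).re := hζ
    simp only [a] at h7
    linarith
  by_contra hlt
  push Not at hlt
  obtain ⟨d, hd⟩ := Nat.exists_eq_add_of_lt hlt
  have h1 : ∀ r : ℝ, 0 < r → r < δ → c ≤ C * r ^ (d + 1) := by
    intro r hr hrδ
    have h2 := hineq r hr hrδ
    have h3 : r ^ k = r ^ (4 * m) * r ^ (d + 1) := by
      rw [hd, ← pow_add]
      congr 1
    rw [h3] at h2
    have h4 : 0 < r ^ (4 * m) := by positivity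
    nlinarith
  have h2 : Tendsto (fun r : ℝ => C * r ^ (d + 1)) (𝓝[>] 0) (𝓝 0) := by
    have h3 : Tendsto (fun r : ℝ => C * r ^ (d + 1)) (𝓝 0) (𝓝 (C * 0 ^ (d + 1))) :=
      ((continuous_const.mul (continuous_pow _)).tendsto 0)
    rw [zero_pow (Nat.succ_ne_zero d), mul_zero] at h3
    exact h3.mono_left nhdsWithin_le_nhds
  have h3 : ∀ᶠ r in 𝓝[>] (0 : ℝ), c ≤ C * r ^ (d + 1) := by
    filter_upwards [Ioo_mem_nhdsGT hδ] with r hr
    exact h1 r hr.1 hr.2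
  have h4 := ge_of_tendsto h2 h3
  linarith

end Pool.Agent.T2H76.SQ
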