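import Mathlib
import Pool.Agent.T2H76.SQ.A

/-!
# Embeddings of the egg domain in the ball
-/

set_option autoImplicit false

open Filter Topology Set Metric

namespace Pool.Agent.T2H76.SQ

/-- a branch of the square root of `1 - a z` -/
noncomputable def K (a : ℝ) (z : ℂ) : ℂ := Complex.exp (Complex.log (1 - a * z) / 2)

theorem re_pos {a : ℝ} {z : ℂ} (ha : |a| < 1) (hz : ‖z‖ < 1) : 0 < (1 - (a : ℂ) * z).re := by
  have h1 : ((a : ℂ) * z).re ≤ ‖(a : ℂ) * z‖ := Complex.re_le_norm _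
  rw [norm_mul, Complex.norm_real, Real.norm_eq_abs] at h1
  have h2 : |a| * ‖z‖ < 1 := by
    have h3 := norm_nonneg z
    have h4 := abs_nonneg a
    nlinarith
  rw [Complex.sub_re, Complex.one_re]
  linarith

theorem ne_zero_of {a : ℝ} {z : ℂ} (ha : |a| < 1) (hz : ‖z‖ < 1) : 1 - (a : ℂ) * z ≠ 0 := by
  intro h
  have := re_pos ha hz
  rw [h, Complex.zero_re] at this
  exact lt_irrefl 0 this

theorem K_ne_zero (a : ℝ) (z : ℂ) : K a z ≠ 0 := Complex.exp_ne_zero _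

theorem K_sq {a : ℝ} {z : ℂ} (ha : |a| < 1) (hz : ‖z‖ < 1) : K a z ^ 2 = 1 - a * z := by
  rw [K, ← Complex.exp_nat_mul]
  rw [show ((2 : ℕ) : ℂ) * (Complex.log (1 - a * z) / 2) = Complex.log (1 - a * z) by
    push_cast
    ring]
  exact Complex.exp_log (ne_zero_of ha hz)

theorem K_diff {a : ℝ} {z : ℂ} (ha : |a| < 1) (hz : ‖z‖ < 1) : DifferentiableAt ℂ (K a) z := by
  unfold K
  have h1 : DifferentiableAt ℂ (fun z : ℂ => 1 - (a : ℂ) * z) z := by fun_prop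
  have h2 : 1 - (a : ℂ) * z ∈ Complex.slitPlane := Or.inl (re_pos ha hz)
  exact ((h1.clog h2).div_const 2).cexp

/-- a disc automorphism -/
theorem mob_norm {a : ℝ} {z : ℂ} (ha : |a| < 1) (hz : ‖z‖ < 1) :
    1 - ‖(z - a) / (1 - a * z)‖ ^ 2 = (1 - a ^ 2) * (1 - ‖z‖ ^ 2) / ‖1 - (a : ℂ) * z‖ ^ 2 := by
  have h0 : ‖1 - (a : ℂ) * z‖ ^ 2 ≠ 0 := by
    have := norm_pos_iff.2 (ne_zero_of ha hz)
    positivity
  rw [norm_div, div_pow, eq_div_iff h0, sub_mul, div_mul_cancel₀ _ h0, one_mul,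
    ← Complex.normSq_eq_norm_sq, ← Complex.normSq_eq_norm_sq, ← Complex.normSq_eq_norm_sq]
  simp only [Complex.normSq_apply, Complex.sub_re, Complex.sub_im, Complex.ofReal_re,
    Complex.ofReal_im, Complex.one_re, Complex.one_im, Complex.mul_re, Complex.mul_im]
  ring

theorem mob_inv {a : ℝ} {z : ℂ} (ha : |a| < 1) (hz : ‖z‖ < 1) :
    1 - ((-a : ℝ) : ℂ) * ((z - a) / (1 - a * z)) = (1 - a ^ 2) / (1 - a * z) := by
  have h0 := ne_zero_of ha hz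
  push_cast
  field_simp
  ring

theorem mob_back {a : ℝ} {z : ℂ} (ha : |a| < 1) (hz : ‖z‖ < 1) :
    ((z - a) / (1 - a * z) - ((-a : ℝ) : ℂ)) / (1 - ((-a : ℝ) : ℂ) * ((z - a) / (1 - a * z))) = z := by
  rw [mob_inv ha hz]
  have h0 := ne_zero_of ha hz
  have h1 : (1 : ℂ) - (a : ℂ) ^ 2 ≠ 0 := by
    have : (1 : ℝ) - a ^ 2 ≠ 0 := by
      have := abs_lt.1 ha
      nlinarith
    exact_mod_cast this
  rw [div_eq_iff (div_ne_zero h1 h0)]
  push_cast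
  rw [sub_neg_eq_add, div_add' _ _ _ h0, mul_div_assoc']
  congr 1
  ring

/-- the automorphisms of the egg domain -/
noncomputable def psi (a : ℝ) (x : EuclideanSpace ℂ (Fin 2)) : EuclideanSpace ℂ (Fin 2) :=
  !₂[(x 0 - a) / (1 - a * x 0), x 1 * (Real.sqrt (Real.sqrt (1 - a ^ 2)) : ℂ) / K a (x 0)]

theorem psi_zero (a : ℝ) (x : EuclideanSpace ℂ (Fin 2)) :
    psi a x 0 = (x 0 - a) / (1 - a * x 0) := rfl

theorem psi_one (a : ℝ) (x : EuclideanSpace ℂ (Fin 2)) :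
    psi a x 1 = x 1 * (Real.sqrt (Real.sqrt (1 - a ^ 2)) : ℂ) / K a (x 0) := rfl

theorem egg_norm_zero {x : EuclideanSpace ℂ (Fin 2)} (hx : x ∈ egg) : ‖x 0‖ < 1 := by
  rw [mem_egg] at hx
  have h1 : 0 ≤ ‖x 1‖ ^ 4 := by positivity
  have h2 : ‖x 0‖ ^ 2 < 1 := by linarith
  have := norm_nonneg (x 0)
  nlinarith

theorem egg_norm_one {x : EuclideanSpace ℂ (Fin 2)} (hx : x ∈ egg) : ‖x 1‖ < 1 := by
  rw [mem_egg] at hx
  have h1 : 0 ≤ ‖x 0‖ ^ 2 := by positivity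
  have h2 : ‖x 1‖ ^ 4 < 1 := by linarith
  by_contra h
  push Not at h
  have : 1 ≤ ‖x 1‖ ^ 4 := one_le_pow₀ h
  linarith

theorem s_pow {a : ℝ} (ha : |a| < 1) : Real.sqrt (Real.sqrt (1 - a ^ 2)) ^ 4 = 1 - a ^ 2 := by
  have h1 : 0 ≤ 1 - a ^ 2 := by
    have := abs_lt.1 ha
    nlinarith
  have h2 : Real.sqrt (Real.sqrt (1 - a ^ 2)) ^ 4 = (Real.sqrt (Real.sqrt (1 - a ^ 2)) ^ 2) ^ 2 := by
    ring
  rw [h2, Real.sq_sqrt (Real.sqrt_nonneg _), Real.sq_sqrt h1]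

theorem psi_rho {a : ℝ} (ha : |a| < 1) {x : EuclideanSpace ℂ (Fin 2)} (hx : ‖x 0‖ < 1) :
    1 - ‖psi a x 0‖ ^ 2 - ‖psi a x 1‖ ^ 4 =
      (1 - a ^ 2) * (1 - ‖x 0‖ ^ 2 - ‖x 1‖ ^ 4) / ‖1 - (a : ℂ) * x 0‖ ^ 2 := by
  rw [psi_zero, psi_one, mob_norm ha hx, norm_div, norm_mul, Complex.norm_real,
    Real.norm_of_nonneg (Real.sqrt_nonneg _), div_pow, mul_pow, s_pow ha]
  have h1 : ‖K a (x 0)‖ ^ 4 = ‖1 - (a : ℂ) * x 0‖ ^ 2 := by
    rw [← K_sq ha hx, norm_pow]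
    ring
  rw [h1]
  ring

theorem psi_mem {a : ℝ} (ha : |a| < 1) {x : EuclideanSpace ℂ (Fin 2)} (hx : x ∈ egg) :
    psi a x ∈ egg := by
  have h0 := egg_norm_zero hx
  have h1 := psi_rho ha h0
  have h2 : 0 < 1 - a ^ 2 := by
    have := abs_lt.1 ha
    nlinarith
  rw [mem_egg] at hx ⊢
  have h3 : 0 < 1 - ‖x 0‖ ^ 2 - ‖x 1‖ ^ 4 := by linarith
  have h4 := norm_pos_iff.2 (ne_zero_of ha h0)
  have h5 : 0 < (1 - a ^ 2) * (1 - ‖x 0‖ ^ 2 - ‖x 1‖ ^ 4) / ‖1 - (a : ℂ) * x 0‖ ^ 2 := by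
    positivity
  linarith

theorem psi_psi {a : ℝ} (ha : |a| < 1) {x : EuclideanSpace ℂ (Fin 2)} (hx : x ∈ egg) :
    psi (-a) (psi a x) = x := by
  have h0 := egg_norm_zero hx
  have ha' : |-a| < 1 := by rwa [abs_neg]
  have hpos : 0 < 1 - a ^ 2 := by
    have := abs_lt.1 ha
    nlinarith
  ext i
  fin_cases i
  · simp only [Fin.zero_eta, Fin.isValue, psi_zero]
    exact mob_back ha h0
  · simp only [Fin.mk_one, Fin.isValue, psi_one, psi_zero]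
    have h1 : K (-a) ((x 0 - a) / (1 - a * x 0)) * K a (x 0) = (Real.sqrt (1 - a ^ 2) : ℂ) := by
      unfold K
      rw [mob_inv ha h0, ← Complex.exp_add]
      have h2 : Complex.log ((1 - (a : ℂ) ^ 2) / (1 - a * x 0)) =
          (Real.log (1 - a ^ 2) : ℂ) - Complex.log (1 - a * x 0) := by
        rw [div_eq_mul_inv, show (1 : ℂ) - (a : ℂ) ^ 2 = ((1 - a ^ 2 : ℝ) : ℂ) by push_cast; ring,
          Complex.log_ofReal_mul hpos (inv_ne_zero (ne_zero_of ha h0)), Complex.log_inv]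
        · ring
        · intro h
          have h3 := re_pos ha h0
          rw [Complex.arg_eq_pi_iff] at h
          linarith [h.1]
      rw [h2, show ((Real.log (1 - a ^ 2) : ℂ) - Complex.log (1 - a * x 0)) / 2 +
        Complex.log (1 - a * x 0) / 2 = ((Real.log (1 - a ^ 2) / 2 : ℝ) : ℂ) by push_cast; ring,
        ← Complex.ofReal_exp]
      congr 1
      rw [Real.sqrt_eq_rpow, Real.rpow_def_of_pos hpos]
      congr 1
      ring
    have h2 : (Real.sqrt (Real.sqrt (1 - a ^ 2)) : ℂ) * (Real.sqrt (Real.sqrt (1 - a ^ 2)) : ℂ) =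
        (Real.sqrt (1 - a ^ 2) : ℂ) := by
      rw [← Complex.ofReal_mul, Real.mul_self_sqrt (Real.sqrt_nonneg _)]
    have h3 := K_ne_zero (-a) ((x 0 - a) / (1 - a * x 0))
    have h4 := K_ne_zero a (x 0)
    rw [show (-a) ^ 2 = a ^ 2 by ring]
    have h5 : x 1 * (Real.sqrt (Real.sqrt (1 - a ^ 2)) : ℂ) / K a (x 0) *
        (Real.sqrt (Real.sqrt (1 - a ^ 2)) : ℂ) / K (-a) ((x 0 - a) / (1 - a * x 0)) =
        x 1 * ((Real.sqrt (Real.sqrt (1 - a ^ 2)) : ℂ) * (Real.sqrt (Real.sqrt (1 - a ^ 2)) : ℂ)) /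
        (K (-a) ((x 0 - a) / (1 - a * x 0)) * K a (x 0)) := by
      field_simp
    rw [h5, h2, h1]
    have h6 : (Real.sqrt (1 - a ^ 2) : ℂ) ≠ 0 := by
      have := (Real.sqrt_pos.2 hpos).ne'
      exact_mod_cast this
    field_simp

theorem psi_diff {a : ℝ} (ha : |a| < 1) {x : EuclideanSpace ℂ (Fin 2)} (hx : ‖x 0‖ < 1) :
    DifferentiableAt ℂ (psi a) x := by
  rw [differentiableAt_euclidean]
  have hd : ∀ i : Fin 2, DifferentiableAt ℂ (fun x : EuclideanSpace ℂ (Fin 2) => x i) x :=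
    fun i => (differentiableAt_euclidean.1 differentiableAt_id) i
  have h0 := ne_zero_of ha hx
  have h3 : DifferentiableAt ℂ (fun x : EuclideanSpace ℂ (Fin 2) => 1 - (a : ℂ) * x 0) x :=
    ((hd 0).const_mul _).const_sub _
  have h4 : DifferentiableAt ℂ (fun x : EuclideanSpace ℂ (Fin 2) => K a (x 0)) x :=
    DifferentiableAt.fun_comp' x (K_diff ha hx) (hd 0)
  intro i
  fin_cases i
  · have h6 : DifferentiableAt ℂ (fun x : EuclideanSpace ℂ (Fin 2) => x 0 - (a : ℂ)) x :=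
      (hd 0).sub_const _
    have h7 := DifferentiableAt.fun_mul h6 (DifferentiableAt.fun_inv h3 h0)
    exact h7
  · have h6 : DifferentiableAt ℂ (fun x : EuclideanSpace ℂ (Fin 2) =>
        x 1 * (Real.sqrt (Real.sqrt (1 - a ^ 2)) : ℂ)) x := (hd 1).mul_const _
    have h7 := DifferentiableAt.fun_mul h6 (DifferentiableAt.fun_inv h4 (K_ne_zero a (x 0)))
    exact h7

end Pool.Agent.T2H76.SQ
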