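import Mathlib
import Pool.Agent.T2H76.SQ.B

/-!
# Embeddings of the egg domain in the ball, second part
-/

set_option autoImplicit false

open Filter Topology Set Metric

namespace Pool.Agent.T2H76.SQ

/-- automorphisms of the ball -/
noncomputable def phi (β : ℝ) (x : EuclideanSpace ℂ (Fin 2)) : EuclideanSpace ℂ (Fin 2) :=
  !₂[(Real.sqrt (1 - β ^ 2) : ℂ) * x 0 / (1 - β * x 1), (x 1 - β) / (1 - β * x 1)]

theorem phi_zero (β : ℝ) (x : EuclideanSpace ℂ (Fin 2)) :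
    phi β x 0 = (Real.sqrt (1 - β ^ 2) : ℂ) * x 0 / (1 - β * x 1) := rfl

theorem phi_one (β : ℝ) (x : EuclideanSpace ℂ (Fin 2)) :
    phi β x 1 = (x 1 - β) / (1 - β * x 1) := rfl

theorem ball_iff {r : ℝ} (hr : 0 < r) {x : EuclideanSpace ℂ (Fin 2)} :
    x ∈ ball (0 : EuclideanSpace ℂ (Fin 2)) r ↔ ‖x 0‖ ^ 2 + ‖x 1‖ ^ 2 < r ^ 2 := by
  rw [mem_ball_zero_iff, ← norm_sq_two]
  constructor
  · intro h
    exact pow_lt_pow_left₀ h (norm_nonneg _) two_ne_zero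
  · intro h
    exact lt_of_pow_lt_pow_left₀ 2 hr.le h

theorem ball_norm_one {x : EuclideanSpace ℂ (Fin 2)}
    (hx : x ∈ ball (0 : EuclideanSpace ℂ (Fin 2)) 1) : ‖x 1‖ < 1 := by
  rw [mem_ball_zero_iff] at hx
  exact (PiLp.norm_apply_le x 1).trans_lt hx

theorem phi_norm {β : ℝ} (hβ : |β| < 1) {x : EuclideanSpace ℂ (Fin 2)} (hx : ‖x 1‖ < 1) :
    1 - (‖phi β x 0‖ ^ 2 + ‖phi β x 1‖ ^ 2) =
      (1 - β ^ 2) * (1 - (‖x 0‖ ^ 2 + ‖x 1‖ ^ 2)) / ‖1 - (β : ℂ) * x 1‖ ^ 2 := by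
  have h1 : 0 ≤ 1 - β ^ 2 := by
    have := abs_lt.1 hβ
    nlinarith
  have h2 := mob_norm hβ hx
  have h3 : 1 - (‖phi β x 0‖ ^ 2 + ‖phi β x 1‖ ^ 2) =
      (1 - ‖(x 1 - β) / (1 - β * x 1)‖ ^ 2) - ‖phi β x 0‖ ^ 2 := by
    rw [phi_one]
    ring
  rw [h3, h2, phi_zero, norm_div, norm_mul, Complex.norm_real,
    Real.norm_of_nonneg (Real.sqrt_nonneg _), div_pow, mul_pow, Real.sq_sqrt h1]
  ring

theorem phi_mem {β : ℝ} (hβ : |β| < 1) {x : EuclideanSpace ℂ (Fin 2)}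
    (hx : x ∈ ball (0 : EuclideanSpace ℂ (Fin 2)) 1) :
    phi β x ∈ ball (0 : EuclideanSpace ℂ (Fin 2)) 1 := by
  have h0 := ball_norm_one hx
  have h1 := phi_norm hβ h0
  rw [ball_iff one_pos, one_pow] at hx ⊢
  have h2 : 0 < 1 - β ^ 2 := by
    have := abs_lt.1 hβ
    nlinarith
  have h3 : 0 < 1 - (‖x 0‖ ^ 2 + ‖x 1‖ ^ 2) := by linarith
  have h4 := norm_pos_iff.2 (ne_zero_of hβ h0)
  have h5 : 0 < (1 - β ^ 2) * (1 - (‖x 0‖ ^ 2 + ‖x 1‖ ^ 2)) / ‖1 - (β : ℂ) * x 1‖ ^ 2 := by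
    positivity
  linarith

theorem phi_phi {β : ℝ} (hβ : |β| < 1) {x : EuclideanSpace ℂ (Fin 2)}
    (hx : x ∈ ball (0 : EuclideanSpace ℂ (Fin 2)) 1) : phi (-β) (phi β x) = x := by
  have h0 := ball_norm_one hx
  have hpos : 0 < 1 - β ^ 2 := by
    have := abs_lt.1 hβ
    nlinarith
  ext i
  fin_cases i
  · simp only [Fin.zero_eta, Fin.isValue, phi_zero, phi_one]
    rw [mob_inv hβ h0, show (-β) ^ 2 = β ^ 2 by ring]
    have h1 : (Real.sqrt (1 - β ^ 2) : ℂ) * (Real.sqrt (1 - β ^ 2) : ℂ) = 1 - (β : ℂ) ^ 2 := by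
      rw [← Complex.ofReal_mul, Real.mul_self_sqrt hpos.le]
      push_cast
      ring
    have h2 : (1 : ℂ) - (β : ℂ) ^ 2 ≠ 0 := by
      have := hpos.ne'
      exact_mod_cast this
    have h3 := ne_zero_of hβ h0
    rw [div_eq_iff (div_ne_zero h2 h3), ← h1]
    ring
  · simp only [Fin.mk_one, Fin.isValue, phi_one]
    exact mob_back hβ h0

theorem phi_diff {β : ℝ} (hβ : |β| < 1) {x : EuclideanSpace ℂ (Fin 2)} (hx : ‖x 1‖ < 1) :
    DifferentiableAt ℂ (phi β) x := by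
  rw [differentiableAt_euclidean]
  have hd : ∀ i : Fin 2, DifferentiableAt ℂ (fun x : EuclideanSpace ℂ (Fin 2) => x i) x :=
    fun i => (differentiableAt_euclidean.1 differentiableAt_id) i
  have h0 := ne_zero_of hβ hx
  have h3 : DifferentiableAt ℂ (fun x : EuclideanSpace ℂ (Fin 2) => 1 - (β : ℂ) * x 1) x :=
    ((hd 1).const_mul _).const_sub _
  intro i
  fin_cases i
  · have h6 : DifferentiableAt ℂ (fun x : EuclideanSpace ℂ (Fin 2) =>
        (Real.sqrt (1 - β ^ 2) : ℂ) * x 0) x := (hd 0).const_mul _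
    have h7 := DifferentiableAt.fun_mul h6 (DifferentiableAt.fun_inv h3 h0)
    exact h7
  · have h6 : DifferentiableAt ℂ (fun x : EuclideanSpace ℂ (Fin 2) => x 1 - (β : ℂ)) x :=
      (hd 1).sub_const _
    have h7 := DifferentiableAt.fun_mul h6 (DifferentiableAt.fun_inv h3 h0)
    exact h7

/-- the affine embedding in the ball -/
noncomputable def aff (x : EuclideanSpace ℂ (Fin 2)) : EuclideanSpace ℂ (Fin 2) :=
  !₂[x 0 / 2, (x 1 + 1) / 2]

/-- its inverse -/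
noncomputable def ffa (x : EuclideanSpace ℂ (Fin 2)) : EuclideanSpace ℂ (Fin 2) :=
  !₂[2 * x 0, 2 * x 1 - 1]

theorem aff_zero (x : EuclideanSpace ℂ (Fin 2)) : aff x 0 = x 0 / 2 := rfl
theorem aff_one (x : EuclideanSpace ℂ (Fin 2)) : aff x 1 = (x 1 + 1) / 2 := rfl
theorem ffa_zero (x : EuclideanSpace ℂ (Fin 2)) : ffa x 0 = 2 * x 0 := rfl
theorem ffa_one (x : EuclideanSpace ℂ (Fin 2)) : ffa x 1 = 2 * x 1 - 1 := rfl

theorem ffa_aff (x : EuclideanSpace ℂ (Fin 2)) : ffa (aff x) = x := by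
  ext i
  fin_cases i
  · simp only [Fin.zero_eta, Fin.isValue, ffa_zero, aff_zero]
    ring
  · simp only [Fin.mk_one, Fin.isValue, ffa_one, aff_one]
    ring

theorem aff_ffa (x : EuclideanSpace ℂ (Fin 2)) : aff (ffa x) = x := by
  ext i
  fin_cases i
  · simp only [Fin.zero_eta, Fin.isValue, ffa_zero, aff_zero]
    ring
  · simp only [Fin.mk_one, Fin.isValue, ffa_one, aff_one]
    ring

theorem aff_diff : Differentiable ℂ aff := by
  intro x
  rw [differentiableAt_euclidean]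
  have hd : ∀ i : Fin 2, DifferentiableAt ℂ (fun x : EuclideanSpace ℂ (Fin 2) => x i) x :=
    fun i => (differentiableAt_euclidean.1 differentiableAt_id) i
  intro i
  fin_cases i
  · have h6 : DifferentiableAt ℂ (fun x : EuclideanSpace ℂ (Fin 2) => x 0 * 2⁻¹) x :=
      (hd 0).mul_const _
    exact h6
  · have h6 : DifferentiableAt ℂ (fun x : EuclideanSpace ℂ (Fin 2) => (x 1 + 1) * 2⁻¹) x :=
      ((hd 1).add_const _).mul_const _
    exact h6

theorem ffa_diff : Differentiable ℂ ffa := by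
  intro x
  rw [differentiableAt_euclidean]
  have hd : ∀ i : Fin 2, DifferentiableAt ℂ (fun x : EuclideanSpace ℂ (Fin 2) => x i) x :=
    fun i => (differentiableAt_euclidean.1 differentiableAt_id) i
  intro i
  fin_cases i
  · have h6 : DifferentiableAt ℂ (fun x : EuclideanSpace ℂ (Fin 2) => 2 * x 0) x :=
      (hd 0).const_mul _
    exact h6
  · have h6 : DifferentiableAt ℂ (fun x : EuclideanSpace ℂ (Fin 2) => 2 * x 1 - 1) x :=
      ((hd 1).const_mul _).sub_const _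
    exact h6

theorem aff_mem {x : EuclideanSpace ℂ (Fin 2)} (hx : x ∈ egg) :
    aff x ∈ ball (0 : EuclideanSpace ℂ (Fin 2)) 1 := by
  have h1 := egg_norm_one hx
  rw [mem_egg] at hx
  rw [ball_iff one_pos, aff_zero, aff_one, norm_div, norm_div, Complex.norm_ofNat]
  have h2 : ‖x 1 + 1‖ ≤ ‖x 1‖ + 1 := by
    have := norm_add_le (x 1) 1
    rwa [norm_one] at this
  have h3 := norm_nonneg (x 1)
  have h4 : ‖x 1 + 1‖ ^ 2 ≤ (‖x 1‖ + 1) ^ 2 := pow_le_pow_left₀ (norm_nonneg _) h2 2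
  have h5 : 0 ≤ (1 - ‖x 1‖) ^ 2 * (2 + 2 * ‖x 1‖ + ‖x 1‖ ^ 2) := by positivity
  nlinarith

theorem key_ineq {r β : ℝ} (hr : 0 < r) (hr1 : r < 1) (hβ0 : 0 ≤ β) (hβ1 : β < 1)
    (hβ : 1 - β ^ 2 ≤ (1 - r ^ 2) / 148) {u : EuclideanSpace ℂ (Fin 2)}
    (hu : u ∈ ball (0 : EuclideanSpace ℂ (Fin 2)) 1)
    (hφ : phi β u ∈ ball (0 : EuclideanSpace ℂ (Fin 2)) r) : ffa u ∈ egg := by
  have habs : |β| < 1 := by rwa [abs_of_nonneg hβ0]
  have h0 := ball_norm_one hu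
  have h1 := phi_norm habs h0
  rw [ball_iff hr] at hφ
  rw [ball_iff one_pos, one_pow] at hu
  rw [mem_egg, ffa_zero, ffa_one]
  have hr2 : 0 < 1 - r ^ 2 := by nlinarith
  have hD := norm_pos_iff.2 (ne_zero_of habs h0)
  have h2 : (1 - r ^ 2) * ‖1 - (β : ℂ) * u 1‖ ^ 2 <
      (1 - β ^ 2) * (1 - (‖u 0‖ ^ 2 + ‖u 1‖ ^ 2)) := by
    rw [← lt_div_iff₀ (by positivity), ← h1]
    linarith
  have h3 : 0 < 1 - (‖u 0‖ ^ 2 + ‖u 1‖ ^ 2) := by linarith
  have h4 : 148 * ‖1 - (β : ℂ) * u 1‖ ^ 2 < 1 - (‖u 0‖ ^ 2 + ‖u 1‖ ^ 2) := by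
    have h5 : (1 - r ^ 2) * ‖1 - (β : ℂ) * u 1‖ ^ 2 <
        (1 - r ^ 2) / 148 * (1 - (‖u 0‖ ^ 2 + ‖u 1‖ ^ 2)) :=
      h2.trans_le (mul_le_mul_of_nonneg_right hβ h3.le)
    have h6 : (1 - r ^ 2) * (148 * ‖1 - (β : ℂ) * u 1‖ ^ 2) <
        (1 - r ^ 2) * (1 - (‖u 0‖ ^ 2 + ‖u 1‖ ^ 2)) := by
      linarith
    exact lt_of_mul_lt_mul_left h6 hr2.le
  set v : ℂ := 1 - u 1 with hv
  have hv1 : ‖v‖ ≤ 2 * ‖1 - (β : ℂ) * u 1‖ := by
    have e1 : v = (1 - (β : ℂ) * u 1) - ((1 - β : ℝ) : ℂ) * u 1 := by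
      rw [hv]
      push_cast
      ring
    have e2 : ‖((1 - β : ℝ) : ℂ) * u 1‖ ≤ 1 - β := by
      rw [norm_mul, Complex.norm_real, Real.norm_of_nonneg (by linarith)]
      have := norm_nonneg (u 1)
      nlinarith
    have e3 : 1 - β ≤ ‖1 - (β : ℂ) * u 1‖ := by
      have e4 : ‖(1 : ℂ)‖ - ‖(β : ℂ) * u 1‖ ≤ ‖1 - (β : ℂ) * u 1‖ := norm_sub_norm_le _ _
      rw [norm_one, norm_mul, Complex.norm_real, Real.norm_of_nonneg hβ0] at e4
      nlinarith
    calc ‖v‖ ≤ ‖1 - (β : ℂ) * u 1‖ + ‖((1 - β : ℝ) : ℂ) * u 1‖ := by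
          rw [e1]
          exact norm_sub_le _ _
      _ ≤ 2 * ‖1 - (β : ℂ) * u 1‖ := by linarith
  have hv2 : ‖v‖ ≤ 2 := by
    have := norm_sub_le (1 : ℂ) (u 1)
    rw [norm_one] at this
    linarith
  have hv3 : ‖v‖ ^ 2 ≤ 4 * ‖1 - (β : ℂ) * u 1‖ ^ 2 := by
    have := pow_le_pow_left₀ (norm_nonneg v) hv1 2
    nlinarith
  have hu1 : u 1 = 1 - v := by
    rw [hv]
    ring
  have hw : ‖u 1‖ ^ 2 = 1 - 2 * v.re + ‖v‖ ^ 2 := by
    rw [hu1, ← Complex.normSq_eq_norm_sq, ← Complex.normSq_eq_norm_sq]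
    simp only [Complex.normSq_apply, Complex.sub_re, Complex.sub_im, Complex.one_re,
      Complex.one_im]
    ring
  have hw2 : ‖2 * u 1 - 1‖ ^ 2 = 1 + (-4 * v.re + 4 * ‖v‖ ^ 2) := by
    rw [hu1, ← Complex.normSq_eq_norm_sq, ← Complex.normSq_eq_norm_sq]
    simp only [Complex.normSq_apply, Complex.sub_re, Complex.sub_im, Complex.one_re,
      Complex.one_im, Complex.mul_re, Complex.mul_im, Complex.re_ofNat, Complex.im_ofNat]
    ring
  set s : ℝ := -4 * v.re + 4 * ‖v‖ ^ 2 with hs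
  have hs1 : |s| ≤ 12 * ‖v‖ := by
    have e1 := Complex.abs_re_le_norm v
    have e2 := norm_nonneg v
    rw [abs_le] at e1 ⊢
    rw [hs]
    constructor <;> nlinarith
  have hs2 : s ^ 2 ≤ 144 * ‖v‖ ^ 2 := by
    have := pow_le_pow_left₀ (abs_nonneg s) hs1 2
    rw [sq_abs] at this
    nlinarith
  have h7 : ‖2 * u 1 - 1‖ ^ 4 = (1 + s) ^ 2 := by
    rw [← hw2]
    ring
  have h8 : ‖(2 : ℂ) * u 0‖ ^ 2 = 4 * ‖u 0‖ ^ 2 := by
    rw [norm_mul, Complex.norm_ofNat]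
    ring
  rw [h7, h8]
  nlinarith

theorem isOpen_egg : IsOpen egg := by
  have h1 : Continuous fun z : EuclideanSpace ℂ (Fin 2) => ‖z 0‖ ^ 2 + ‖z 1‖ ^ 4 := by
    fun_prop
  exact isOpen_lt h1 continuous_const

/-- the points of the sequence -/
noncomputable def pt (a b : ℝ) : EuclideanSpace ℂ (Fin 2) :=
  !₂[(a : ℂ), (b : ℂ) * (Real.sqrt (Real.sqrt (1 - a ^ 2)) : ℂ)]

theorem pt_mem {a b : ℝ} (ha : |a| < 1) (hb0 : 0 ≤ b) (hb : b < 1) : pt a b ∈ egg := by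
  have hpos : 0 < 1 - a ^ 2 := by
    have := abs_lt.1 ha
    nlinarith
  rw [mem_egg]
  have h0 : pt a b 0 = (a : ℂ) := rfl
  have h1 : pt a b 1 = (b : ℂ) * (Real.sqrt (Real.sqrt (1 - a ^ 2)) : ℂ) := rfl
  rw [h0, h1, norm_mul, Complex.norm_real, Complex.norm_real, Complex.norm_real,
    Real.norm_of_nonneg (Real.sqrt_nonneg _), mul_pow, s_pow ha, Real.norm_eq_abs, sq_abs,
    Real.norm_of_nonneg hb0]
  have h2 : b ^ 4 < 1 := pow_lt_one₀ hb0 hb (by norm_num)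
  nlinarith

theorem emb {r a b : ℝ} (hr : 0 < r) (hr1 : r < 1) (ha : |a| < 1) (hb0 : 0 ≤ b) (hb : b < 1)
    (hβ : 1 - ((1 + b) / 2) ^ 2 ≤ (1 - r ^ 2) / 148) :
    ∃ F G : EuclideanSpace ℂ (Fin 2) → EuclideanSpace ℂ (Fin 2),
      DifferentiableOn ℂ F egg ∧ MapsTo F egg (ball 0 1) ∧ F (pt a b) = 0 ∧ IsOpen (F '' egg) ∧
      DifferentiableOn ℂ G (F '' egg) ∧ (∀ w ∈ egg, G (F w) = w) ∧ ball 0 r ⊆ F '' egg := by
  set β : ℝ := (1 + b) / 2 with hβdef
  have hβ0 : 0 ≤ β := by positivity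
  have hβ1 : β < 1 := by
    rw [hβdef]
    linarith
  have habs : |β| < 1 := by rwa [abs_of_nonneg hβ0]
  have habs' : |-β| < 1 := by rwa [abs_neg]
  have ha' : |-a| < 1 := by rwa [abs_neg]
  have hpos : 0 < 1 - a ^ 2 := by
    have := abs_lt.1 ha
    nlinarith
  let F : EuclideanSpace ℂ (Fin 2) → EuclideanSpace ℂ (Fin 2) := fun x => phi β (aff (psi a x))
  let G : EuclideanSpace ℂ (Fin 2) → EuclideanSpace ℂ (Fin 2) := fun x =>
    psi (-a) (ffa (phi (-β) x))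
  have himage : F '' egg = ball 0 1 ∩ (fun w => ffa (phi (-β) w)) ⁻¹' egg := by
    ext w
    constructor
    · rintro ⟨x, hx, rfl⟩
      have h1 := aff_mem (psi_mem ha hx)
      refine ⟨phi_mem habs h1, ?_⟩
      rw [mem_preimage]
      simp only [F]
      rw [phi_phi habs h1, ffa_aff]
      exact psi_mem ha hx
    · rintro ⟨hw, hw2⟩
      rw [mem_preimage] at hw2
      refine ⟨psi (-a) (ffa (phi (-β) w)), psi_mem ha' hw2, ?_⟩
      simp only [F]
      have h1 := psi_psi ha' hw2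
      rw [neg_neg] at h1
      rw [h1, aff_ffa]
      have h2 := phi_phi habs' hw
      rwa [neg_neg] at h2
  refine ⟨F, G, ?_, ?_, ?_, ?_, ?_, ?_, ?_⟩
  · intro x hx
    have h1 : DifferentiableAt ℂ (psi a) x := psi_diff ha (egg_norm_zero hx)
    have h2 : DifferentiableAt ℂ aff (psi a x) := aff_diff _
    have h3 : DifferentiableAt ℂ (phi β) (aff (psi a x)) :=
      phi_diff habs (ball_norm_one (aff_mem (psi_mem ha hx)))
    exact (h3.comp x (h2.comp x h1)).differentiableWithinAt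
  · intro x hx
    exact phi_mem habs (aff_mem (psi_mem ha hx))
  · have h0 : pt a b 0 = (a : ℂ) := rfl
    have h1 : pt a b 1 = (b : ℂ) * (Real.sqrt (Real.sqrt (1 - a ^ 2)) : ℂ) := rfl
    have h2 : psi a (pt a b) = !₂[(0 : ℂ), (b : ℂ)] := by
      ext i
      fin_cases i
      · simp only [Fin.zero_eta, Fin.isValue, psi_zero]
        rw [h0, sub_self, zero_div]
        rfl
      · simp only [Fin.mk_one, Fin.isValue, psi_one]
        rw [h0, h1]
        have h3 : K a (a : ℂ) = (Real.sqrt (1 - a ^ 2) : ℂ) := by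
          unfold K
          rw [show (1 : ℂ) - (a : ℂ) * a = ((1 - a ^ 2 : ℝ) : ℂ) by push_cast; ring,
            ← Complex.ofReal_log hpos.le, show ((Real.log (1 - a ^ 2) : ℝ) : ℂ) / 2 =
            ((Real.log (1 - a ^ 2) / 2 : ℝ) : ℂ) by push_cast; ring, ← Complex.ofReal_exp]
          congr 1
          rw [Real.sqrt_eq_rpow, Real.rpow_def_of_pos hpos]
          congr 1
          ring
        have h4 : (Real.sqrt (Real.sqrt (1 - a ^ 2)) : ℂ) *
            (Real.sqrt (Real.sqrt (1 - a ^ 2)) : ℂ) = (Real.sqrt (1 - a ^ 2) : ℂ) := by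
          rw [← Complex.ofReal_mul, Real.mul_self_sqrt (Real.sqrt_nonneg _)]
        have h5 : (Real.sqrt (1 - a ^ 2) : ℂ) ≠ 0 := by
          have := (Real.sqrt_pos.2 hpos).ne'
          exact_mod_cast this
        rw [h3, mul_assoc, h4, mul_div_assoc, div_self h5, mul_one]
        rfl
    simp only [F]
    rw [h2]
    ext i
    fin_cases i
    · simp only [Fin.zero_eta, Fin.isValue, phi_zero, aff_zero]
      simp
    · simp only [Fin.mk_one, Fin.isValue, phi_one, aff_one]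
      have h3 : ((!₂[(0 : ℂ), (b : ℂ)] : EuclideanSpace ℂ (Fin 2)) 1 + 1) / 2 - (β : ℂ) = 0 := by
        rw [hβdef]
        push_cast
        ring
      rw [h3, zero_div]
      rfl
  · rw [himage]
    refine ContinuousOn.isOpen_inter_preimage ?_ isOpen_ball isOpen_egg
    intro w hw
    have h1 : ContinuousAt (phi (-β)) w := (phi_diff habs' (ball_norm_one hw)).continuousAt
    exact (ContinuousAt.comp (g := ffa) (ffa_diff _).continuousAt h1).continuousWithinAt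
  · rw [himage]
    rintro w ⟨hw, hw2⟩
    rw [mem_preimage] at hw2
    have h1 : DifferentiableAt ℂ (phi (-β)) w := phi_diff habs' (ball_norm_one hw)
    have h2 : DifferentiableAt ℂ ffa (phi (-β) w) := ffa_diff _
    have h3 : DifferentiableAt ℂ (psi (-a)) (ffa (phi (-β) w)) :=
      psi_diff ha' (egg_norm_zero hw2)
    exact (h3.comp w (h2.comp w h1)).differentiableWithinAt
  · intro x hx
    simp only [F, G]
    rw [phi_phi habs (aff_mem (psi_mem ha hx)), ffa_aff, psi_psi ha hx]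
  · intro w hw
    rw [himage]
    have hw1 : w ∈ ball (0 : EuclideanSpace ℂ (Fin 2)) 1 := ball_subset_ball hr1.le hw
    refine ⟨hw1, ?_⟩
    rw [mem_preimage]
    apply key_ineq hr hr1 hβ0 hβ1 hβ (phi_mem habs' hw1)
    have h2 := phi_phi habs' hw1
    rw [neg_neg] at h2
    rwa [h2]

end Pool.Agent.T2H76.SQ
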