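import Mathlib
import Pool.Agent.T2H76.SQ.C

/-!
# The defining function and the Levi form
-/

set_option autoImplicit false

open Filter Topology Set Metric
open scoped ContDiff

namespace Pool.Agent.T2H76.SQ

theorem contDiff_rho : ContDiff ℝ ∞ rho := by
  have h : ∀ i : Fin 2, ContDiff ℝ ∞ (fun z : EuclideanSpace ℂ (Fin 2) => ‖z i‖ ^ 2) := by
    intro i
    have h1 : ContDiff ℝ ∞ (fun z : EuclideanSpace ℂ (Fin 2) => z i) :=
      ((EuclideanSpace.proj i : EuclideanSpace ℂ (Fin 2) →L[ℂ] ℂ).restrictScalars ℝ).contDiff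
    exact h1.norm_sq ℝ
  have h2 : rho = fun z : EuclideanSpace ℂ (Fin 2) => ‖z 0‖ ^ 2 + (‖z 1‖ ^ 2) ^ 2 - 1 := by
    funext z
    simp only [rho]
    ring
  rw [h2]
  exact ((h 0).add ((h 1).pow 2)).sub contDiff_const

/-- restriction of the defining function to real lines -/
theorem rho_line (q t : EuclideanSpace ℂ (Fin 2)) (s : ℝ) : rho (q + s • t) =
    (‖q 0‖ ^ 2 + 2 * ((starRingEnd ℂ) (q 0) * t 0).re * s + ‖t 0‖ ^ 2 * s ^ 2) +
    (‖q 1‖ ^ 2 + 2 * ((starRingEnd ℂ) (q 1) * t 1).re * s + ‖t 1‖ ^ 2 * s ^ 2) ^ 2 - 1 := by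
  have h : ∀ i : Fin 2, ‖(q + s • t) i‖ ^ 2 =
      ‖q i‖ ^ 2 + 2 * ((starRingEnd ℂ) (q i) * t i).re * s + ‖t i‖ ^ 2 * s ^ 2 := by
    intro i
    rw [PiLp.add_apply, PiLp.smul_apply, ← Complex.normSq_eq_norm_sq,
      ← Complex.normSq_eq_norm_sq, ← Complex.normSq_eq_norm_sq, Complex.real_smul]
    simp only [Complex.normSq_apply, Complex.add_re, Complex.add_im, Complex.mul_re,
      Complex.mul_im, Complex.ofReal_re, Complex.ofReal_im, Complex.conj_re, Complex.conj_im]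
    ring
  have h2 : rho (q + s • t) = ‖(q + s • t) 0‖ ^ 2 + (‖(q + s • t) 1‖ ^ 2) ^ 2 - 1 := by
    simp only [rho]
    ring
  rw [h2, h 0, h 1]

theorem rho_line_deriv (q t : EuclideanSpace ℂ (Fin 2)) :
    HasDerivAt (fun s : ℝ => rho (q + s • t)) (2 * ((starRingEnd ℂ) (q 0) * t 0).re +
      4 * ‖q 1‖ ^ 2 * ((starRingEnd ℂ) (q 1) * t 1).re) 0 := by
  have h1 : (fun s : ℝ => rho (q + s • t)) = fun s : ℝ =>
    (‖q 0‖ ^ 2 + 2 * ((starRingEnd ℂ) (q 0) * t 0).re * s + ‖t 0‖ ^ 2 * s ^ 2) +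
    (‖q 1‖ ^ 2 + 2 * ((starRingEnd ℂ) (q 1) * t 1).re * s + ‖t 1‖ ^ 2 * s ^ 2) ^ 2 - 1 :=
    funext fun s => rho_line q t s
  rw [h1]
  have hq : ∀ (A B C s : ℝ), HasDerivAt (fun s : ℝ => A + B * s + C * s ^ 2) (B + C * (2 * s)) s := by
    intro A B C s
    refine HasDerivAt.congr_deriv (f' := B * 1 + C * ((2 : ℕ) * s ^ (2 - 1))) ?_ ?_
    · exact (((hasDerivAt_id s).const_mul B).const_add A).add ((hasDerivAt_pow 2 s).const_mul C)
    · norm_num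
  refine HasDerivAt.congr_deriv
    (((hq (‖q 0‖ ^ 2) (2 * ((starRingEnd ℂ) (q 0) * t 0).re) (‖t 0‖ ^ 2) 0).add
    ((hq (‖q 1‖ ^ 2) (2 * ((starRingEnd ℂ) (q 1) * t 1).re) (‖t 1‖ ^ 2) 0).pow 2)).sub_const 1) ?_
  norm_num
  ring

theorem rho_line_second (q t : EuclideanSpace ℂ (Fin 2)) :
    iteratedDeriv 2 (fun s : ℝ => rho (q + s • t)) 0 = 2 * ‖t 0‖ ^ 2 +
      4 * ‖q 1‖ ^ 2 * ‖t 1‖ ^ 2 + 8 * (((starRingEnd ℂ) (q 1) * t 1).re) ^ 2 := by
  have h1 : (fun s : ℝ => rho (q + s • t)) = fun s : ℝ =>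
    (‖q 0‖ ^ 2 + 2 * ((starRingEnd ℂ) (q 0) * t 0).re * s + ‖t 0‖ ^ 2 * s ^ 2) +
    (‖q 1‖ ^ 2 + 2 * ((starRingEnd ℂ) (q 1) * t 1).re * s + ‖t 1‖ ^ 2 * s ^ 2) ^ 2 - 1 :=
    funext fun s => rho_line q t s
  rw [h1]
  have hq : ∀ (A B C s : ℝ), HasDerivAt (fun s : ℝ => A + B * s + C * s ^ 2) (B + C * (2 * s)) s := by
    intro A B C s
    refine HasDerivAt.congr_deriv (f' := B * 1 + C * ((2 : ℕ) * s ^ (2 - 1))) ?_ ?_
    · exact (((hasDerivAt_id s).const_mul B).const_add A).add ((hasDerivAt_pow 2 s).const_mul C)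
    · norm_num
  have hq' : ∀ (B C s : ℝ), HasDerivAt (fun s : ℝ => B + C * (2 * s)) (C * 2) s := by
    intro B C s
    refine HasDerivAt.congr_deriv (f' := C * (2 * 1)) ?_ ?_
    · exact (((hasDerivAt_id s).const_mul 2).const_mul C).const_add B
    · ring
  generalize ‖q 0‖ ^ 2 = A0
  generalize 2 * ((starRingEnd ℂ) (q 0) * t 0).re = B0
  generalize ‖t 0‖ ^ 2 = C0
  generalize ‖q 1‖ ^ 2 = A1
  generalize hB1 : ((starRingEnd ℂ) (q 1) * t 1).re = B1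
  generalize ‖t 1‖ ^ 2 = C1
  have hd : deriv (fun s : ℝ => (A0 + B0 * s + C0 * s ^ 2) +
      (A1 + 2 * B1 * s + C1 * s ^ 2) ^ 2 - 1) = fun s => (B0 + C0 * (2 * s)) +
        2 * (A1 + 2 * B1 * s + C1 * s ^ 2) * (2 * B1 + C1 * (2 * s)) := by
    funext s
    have e4 := ((hq A0 B0 C0 s).add ((hq A1 (2 * B1) C1 s).pow 2)).sub_const 1
    have e5 := e4.deriv
    simp only [Nat.cast_ofNat, Nat.add_one_sub_one, pow_one] at e5
    exact e5
  rw [iteratedDeriv_succ, iteratedDeriv_one, hd]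
  have e6 := (hq' B0 C0 0).add (((hq A1 (2 * B1) C1 0).const_mul 2).mul (hq' (2 * B1) C1 0))
  have e7 := e6.deriv
  have e8 : deriv (fun s : ℝ => (B0 + C0 * (2 * s)) +
        2 * (A1 + 2 * B1 * s + C1 * s ^ 2) * (2 * B1 + C1 * (2 * s))) 0 =
      C0 * 2 + (2 * (2 * B1 + C1 * (2 * 0)) * (2 * B1 + C1 * (2 * 0)) +
        2 * (A1 + 2 * B1 * 0 + C1 * 0 ^ 2) * (C1 * 2)) := e7
  rw [e8]
  ring

theorem fderiv_rho_ne {q : EuclideanSpace ℂ (Fin 2)} (hq : q ≠ 0) : fderiv ℝ rho q ≠ 0 := by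
  intro h
  have h1 : HasFDerivAt rho (fderiv ℝ rho q) q :=
    (contDiff_rho.differentiable (by simp) q).hasFDerivAt
  have h2 : HasDerivAt (fun s : ℝ => q + s • q) q 0 := by
    have := ((hasDerivAt_id (0 : ℝ)).smul_const q).const_add q
    simpa using this
  have h3 : HasDerivAt (fun s : ℝ => rho (q + s • q)) (fderiv ℝ rho q q) 0 := by
    have h4 : HasFDerivAt rho (fderiv ℝ rho q) (q + (0 : ℝ) • q) := by simpa using h1
    exact h4.comp_hasDerivAt (0 : ℝ) h2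
  have h5 := h3.unique (rho_line_deriv q q)
  rw [h] at h5
  have h6 : ∀ i : Fin 2, ((starRingEnd ℂ) (q i) * q i).re = ‖q i‖ ^ 2 := by
    intro i
    rw [mul_comm, Complex.mul_conj, Complex.ofReal_re, Complex.normSq_eq_norm_sq]
  rw [h6, h6] at h5
  have h7 : ‖q 0‖ = 0 := by
    have h8 : 0 ≤ ‖q 1‖ ^ 2 * ‖q 1‖ ^ 2 := by positivity
    have h9 : (0 : ℝ) = 2 * ‖q 0‖ ^ 2 + 4 * ‖q 1‖ ^ 2 * ‖q 1‖ ^ 2 := h5
    have h10 : ‖q 0‖ ^ 2 ≤ 0 := by nlinarith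
    have h11 : ‖q 0‖ ^ 2 = 0 := le_antisymm h10 (by positivity)
    exact pow_eq_zero_iff (two_ne_zero) |>.1 h11
  have h8 : ‖q 1‖ = 0 := by
    have h9 : (0 : ℝ) = 2 * ‖q 0‖ ^ 2 + 4 * ‖q 1‖ ^ 2 * ‖q 1‖ ^ 2 := h5
    have h10 : ‖q 1‖ ^ 4 ≤ 0 := by
      have : 0 ≤ ‖q 0‖ ^ 2 := by positivity
      nlinarith
    have h11 : ‖q 1‖ ^ 4 = 0 := le_antisymm h10 (by positivity)
    exact pow_eq_zero_iff (by norm_num) |>.1 h11
  apply hq
  ext i
  fin_cases i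
  · exact norm_eq_zero.1 h7
  · exact norm_eq_zero.1 h8

theorem second_le {g : ℝ → ℝ} (hg : ContDiffAt ℝ 2 g 0) (h0 : g 0 = 0) {C : ℝ}
    (h : ∀ᶠ s in 𝓝 (0 : ℝ), g s ≤ C * s ^ 4) : deriv g 0 = 0 ∧ iteratedDeriv 2 g 0 ≤ 0 := by
  let k : ℝ → ℝ := fun s => g s - C * s ^ 4
  have hgd : ∀ᶠ s in 𝓝 (0 : ℝ), DifferentiableAt ℝ g s := by
    have h1 := hg.eventually (by simp)
    filter_upwards [h1] with s hs
    exact hs.differentiableAt (by simp)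
  have hk4 : ∀ s : ℝ, HasDerivAt (fun s : ℝ => C * s ^ 4) (C * (4 * s ^ 3)) s := by
    intro s
    have := (hasDerivAt_pow 4 s).const_mul C
    simpa using this
  have hkd : ∀ᶠ s in 𝓝 (0 : ℝ), deriv k s = deriv g s - C * (4 * s ^ 3) := by
    filter_upwards [hgd] with s hs
    exact (hs.hasDerivAt.sub (hk4 s)).deriv
  have hmax : IsLocalMax k 0 := by
    filter_upwards [h] with s hs
    have hk0 : k 0 = 0 := by simp [k, h0]
    rw [hk0]
    simp only [k]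
    linarith
  have h1 : deriv k 0 = 0 := hmax.deriv_eq_zero
  have h2 : deriv g 0 = 0 := by
    have := hkd.self_of_nhds
    rw [h1] at this
    simp at this
    exact this.symm
  refine ⟨h2, ?_⟩
  have hdd : DifferentiableAt ℝ (deriv g) 0 := by
    have h3 : ContDiffAt ℝ 1 (fderiv ℝ g) 0 := hg.fderiv_right (by norm_num)
    have h4 : DifferentiableAt ℝ (fun s => fderiv ℝ g s 1) 0 :=
      (h3.differentiableAt (by simp)).clm_apply (differentiableAt_const _)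
    exact h4
  have h3 : deriv (deriv k) 0 = deriv (deriv g) 0 := by
    have h4 : deriv k =ᶠ[𝓝 0] fun s => deriv g s - C * (4 * s ^ 3) := hkd
    rw [h4.deriv_eq]
    have h5 : HasDerivAt (fun s : ℝ => C * (4 * s ^ 3)) (C * (4 * (3 * 0 ^ 2))) 0 := by
      have := (((hasDerivAt_pow 3 (0 : ℝ)).const_mul 4).const_mul C)
      simpa using this
    have h6 := (hdd.hasDerivAt.sub h5).deriv
    have h7 : deriv (fun s => deriv g s - C * (4 * s ^ 3)) 0 =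
      deriv (deriv g) 0 - C * (4 * (3 * 0 ^ 2)) := h6
    rw [h7]
    simp
  rw [iteratedDeriv_succ, iteratedDeriv_one, ← h3]
  by_contra hcon
  push Not at hcon
  have hkc : ContinuousAt k 0 := by
    have : ContinuousAt g 0 := hg.continuousAt
    exact this.sub (hk4 0).continuousAt
  have hmin := isLocalMin_of_deriv_deriv_pos hcon h1 hkc
  have hzero : k =ᶠ[𝓝 0] fun _ => k 0 := by
    filter_upwards [hmax, hmin] with s g1 g2
    exact le_antisymm g1 g2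
  have h8 : deriv k =ᶠ[𝓝 0] deriv (fun _ => k 0) := hzero.deriv
  rw [h8.deriv_eq] at hcon
  simp at hcon

end Pool.Agent.T2H76.SQ
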