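import Mathlib
import Pool.Agent.T2H76.SQ.D

/-!
# No local defining function of the egg domain at `(1, 0)` has a positive definite Levi form
-/

set_option autoImplicit false

open Filter Topology Set Metric
open scoped ContDiff

namespace Pool.Agent.T2H76.SQ

/-- the weakly pseudoconvex point -/
noncomputable def pw : EuclideanSpace ℂ (Fin 2) := !₂[(1 : ℂ), (0 : ℂ)]

/-- the complex tangent direction -/
noncomputable def tw : EuclideanSpace ℂ (Fin 2) := !₂[(0 : ℂ), (1 : ℂ)]

theorem pw_zero : pw 0 = 1 := rfl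
theorem pw_one : pw 1 = 0 := rfl
theorem tw_zero : tw 0 = 0 := rfl
theorem tw_one : tw 1 = 1 := rfl

theorem pw_notMem : pw ∉ egg := by
  rw [mem_egg, pw_zero, pw_one]
  simp

theorem bound_line {U : Set (EuclideanSpace ℂ (Fin 2))} {ρ : EuclideanSpace ℂ (Fin 2) → ℝ}
    (hU : IsOpen U) (hp : pw ∈ U) (hρ : ContDiffOn ℝ ∞ ρ U) (hD : ∀ q ∈ U, q ∈ egg ↔ ρ q < 0)
    (c : ℂ) (hc : ‖c‖ = 1) :
    ContDiffAt ℝ 2 (fun s : ℝ => ρ (pw + s • (c • tw))) 0 ∧
    ρ pw = 0 ∧ ∃ C : ℝ, ∀ᶠ s in 𝓝 (0 : ℝ), ρ (pw + s • (c • tw)) ≤ C * s ^ 4 := by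
  have hρat : ContDiffAt ℝ ∞ ρ pw := hρ.contDiffAt (hU.mem_nhds hp)
  obtain ⟨K, t, ht, hK⟩ := (hρat.of_le (m := 1) (by simp)).exists_lipschitzOnWith
  let x : ℝ → EuclideanSpace ℂ (Fin 2) := fun s => pw + s • (c • tw)
  let y : ℝ → EuclideanSpace ℂ (Fin 2) := fun s => (pw + s • (c • tw)) + (-(s ^ 4)) • pw
  have hx : Continuous x := by fun_prop
  have hy : Continuous y := by fun_prop
  have hx0 : x 0 = pw := by simp [x]
  have hy0 : y 0 = pw := by simp [y]
  have hyc0 : ∀ s, y s 0 = ((1 - s ^ 4 : ℝ) : ℂ) := by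
    intro s
    simp only [y, PiLp.add_apply, PiLp.smul_apply, pw_zero, tw_zero, smul_eq_mul, mul_zero,
      smul_zero, add_zero, Complex.real_smul, mul_one]
    push_cast
    ring
  have hyc1 : ∀ s, y s 1 = (s : ℂ) * c := by
    intro s
    simp only [y, PiLp.add_apply, PiLp.smul_apply, pw_one, tw_one, smul_eq_mul, mul_one,
      smul_zero, add_zero, zero_add, Complex.real_smul]
  have hyegg : ∀ s : ℝ, s ≠ 0 → |s| < 1 → y s ∈ egg := by
    intro s hs0 hs1
    rw [mem_egg, hyc0, hyc1, norm_mul, hc, mul_one, Complex.norm_real, Complex.norm_real,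
      Real.norm_eq_abs, Real.norm_eq_abs, sq_abs]
    have h1 : |s| ^ 4 = s ^ 4 := by
      rw [show |s| ^ 4 = (|s| ^ 2) ^ 2 by ring, sq_abs]
      ring
    rw [h1]
    have h2 : s ^ 4 < 1 := by
      rw [← h1]
      exact pow_lt_one₀ (abs_nonneg s) hs1 (by norm_num)
    have h3 : 0 < s ^ 4 := by positivity
    nlinarith
  have hyneg : ∀ᶠ s in 𝓝[≠] (0 : ℝ), ρ (y s) < 0 := by
    have h1 : ∀ᶠ s in 𝓝 (0 : ℝ), y s ∈ U := by
      apply hy.continuousAt.eventually
      rw [hy0]
      exact hU.mem_nhds hp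
    have h2 : ∀ᶠ s in 𝓝 (0 : ℝ), |s| < 1 := by
      have : Tendsto (fun s : ℝ => |s|) (𝓝 0) (𝓝 |0|) := continuous_abs.tendsto 0
      apply this.eventually_lt_const
      simp
    filter_upwards [nhdsWithin_le_nhds h1, nhdsWithin_le_nhds h2, self_mem_nhdsWithin]
      with s h1 h2 h3
    exact (hD _ h1).1 (hyegg s h3 h2)
  have hp0 : ρ pw = 0 := by
    apply le_antisymm
    · have h1 : Tendsto (fun s => ρ (y s)) (𝓝[≠] (0 : ℝ)) (𝓝 (ρ pw)) := by
        have h2 : ContinuousAt ρ (y 0) := by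
          rw [hy0]
          exact hρat.continuousAt
        have h3 : ContinuousAt (fun s => ρ (y s)) 0 :=
          ContinuousAt.comp (g := ρ) (f := y) h2 hy.continuousAt
        have h4 : Tendsto (fun s => ρ (y s)) (𝓝 (0 : ℝ)) (𝓝 (ρ (y 0))) := h3
        rw [hy0] at h4
        exact h4.mono_left nhdsWithin_le_nhds
      exact le_of_tendsto h1 (hyneg.mono fun s hs => hs.le)
    · by_contra hcon
      push Not at hcon
      exact pw_notMem ((hD _ hp).2 hcon)
  refine ⟨?_, hp0, (K : ℝ), ?_⟩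
  · have h1 : ContDiffAt ℝ 2 ρ (x 0) := by
      rw [hx0]
      exact contDiffAt_infty.1 hρat 2
    have h2 : ContDiff ℝ 2 x := by
      simp only [x]
      fun_prop
    exact ContDiffAt.comp (0 : ℝ) (g := ρ) (f := x) h1 h2.contDiffAt
  · have hxt : ∀ᶠ s in 𝓝 (0 : ℝ), x s ∈ t := by
      apply hx.continuousAt.eventually
      rw [hx0]
      exact ht
    have hyt : ∀ᶠ s in 𝓝 (0 : ℝ), y s ∈ t := by
      apply hy.continuousAt.eventually
      rw [hy0]
      exact ht
    rw [eventually_nhdsWithin_iff] at hyneg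
    filter_upwards [hxt, hyt, hyneg] with s h1 h2 h3
    by_cases hs : s = 0
    · subst hs
      simp [hp0]
    · have h4 := hK.dist_le_mul _ h1 _ h2
      rw [Real.dist_eq, dist_eq_norm] at h4
      have h5 : x s - y s = (s ^ 4) • pw := by
        simp only [x, y]
        module
      have h6 : ‖pw‖ = 1 := by
        have h7 := norm_sq_two pw
        rw [pw_zero, pw_one, norm_one, norm_zero] at h7
        have h8 : ‖pw‖ ^ 2 = 1 := by
          rw [h7]
          norm_num
        have h9 := norm_nonneg pw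
        nlinarith
      rw [h5, norm_smul, h6, mul_one, Real.norm_of_nonneg (by positivity)] at h4
      have h7 := h3 hs
      have h8 := (abs_le.1 h4).2
      have h9 : ρ (x s) ≤ (K : ℝ) * s ^ 4 := by linarith
      exact h9

end Pool.Agent.T2H76.SQ
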